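import Mathlib

/-!
# The Elementary Type Conjecture: reduction to countable subfields of the complex numbers

For a prime `p` and a field `F` let `FG p F` say that `F` contains a primitive `p`-th root of unity and that
its maximal pro-`p` Galois group `G_F(p)` is topologically finitely generated, and let `ET p F` say that
`G_F(p)` has a decomposition as in the Elementary Type Conjecture (into groups `ℤ_p`, decomposition
groups of valuations of `F` with nontrivial inertia group, and, for `p = 2`, groups of order two). Question
Q1 asks if `FG p F` implies `ET p F` for all `p` and `F`.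

**Theorem.** Let `p` be a prime. The following are equivalent.

1. Q1 for `p`: every field `F` with `FG p F` satisfies `ET p F`.
2. Every countable subfield `F` of `ℂ` with `FG p F` satisfies `ET p F`.
3. Let `F` be a countable field of characteristic zero which has a nontrivial henselian valuation with
   residue field of characteristic zero and `p`-divisible value group. If `FG p F` then `ET p F`.

The following facts are used; they are hypotheses of the theorem (`IsKnown`), and here are their proofs.

* `iso`: invariance under isomorphisms.

* `elementary`: let `F` satisfy `FG p F`. By Löwenheim and Skolem there is a countable elementary substructure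
  `E` of `F`. For every `n` the Galois extensions of `F` of degree `p^n` are finite in number, so by elementary
  equivalence restriction gives an isomorphism of `G_F(p)` with `G_E(p)`. Let `v` be a valuation of `E`, with
  extension to `E(p)`, with decomposition group `Z` and inertia group `T ≠ 1`. There is an ultrapower `E*` of
  `E` with an elementary embedding of `F` in `E*` over `E`; the three fields have the same group. The
  valuation `v` extends to the ultrapower with the same groups `Z` and `T`, since at each finite level
  they are first order definable. Let `w` be the restriction of this extension to `F`. Decomposition and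
  inertia groups can only become bigger under restriction of valuations to smaller fields with the same
  group. Hence `w` has the decomposition group `Z` and the inertia group `T` as well.

* `lift` and `lift_char`: let `E` be countable with `FG p E`. Let `K'` be the quotient field of a countable
  henselian discrete valuation ring of characteristic zero with residue field `E` (if `E` is of characteristic
  zero, the henselization of `E[t]` at the origin; otherwise an elementary substructure of the complete
  discrete valuation field with residue field `E` and characteristic zero) and let `K` be obtained by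
  adjoining all roots of order a power of `p` (a compatible system) of a uniformizer. Then `K` has a
  henselian valuation `w` with residue field `E` and `p`-divisible value group, and as the residue
  characteristic is not `p`, `w` has a trivial inertia group in `G_K(p)`, so `G_K(p) = G_E(p)`. Suppose
  `ET p K` and let `Z ≠ 1` be a factor which is the decomposition group of a valuation `v` with inertia
  group `T ≠ 1`. On the fixed field `L` of `Z` in `K(p)` both `v` and `w` are `p`-henselian, and the residue
  field of `w` on `L` is not `p`-closed. So the two valuations are comparable on `L` (Engler and Prestel,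
  Valued fields, Section 4.4). Coarser valuations have smaller inertia groups, so `v` is strictly
  finer than `w`, and it induces a valuation on the residue field `E(p)` of `w` on `K(p)`; this has the
  decomposition group `Z` and the inertia group `T`.
-/

set_option autoImplicit false

namespace Pool.Agent.Results.MP_600e55_nt.CountableSubfields

open Cardinal

/-- the maximal `p`-extension -/
noncomputable def maxExt (p : ℕ) (F : Type) [Field F] : IntermediateField F (AlgebraicClosure F) :=
  sSup {L : IntermediateField F (AlgebraicClosure F) |
    FiniteDimensional F L ∧ IsGalois F L ∧ ∃ k : ℕ, Module.finrank F L = p ^ k}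

/-- the maximal pro-`p` Galois group -/
abbrev GalP (p : ℕ) (F : Type) [Field F] : Type := maxExt p F ≃ₐ[F] maxExt p F

/-- There is a primitive `p`-th root of unity, and the maximal pro-`p` Galois group is finitely
generated. -/
def FG (p : ℕ) (F : Type) [Field F] : Prop :=
  (∃ ζ : F, IsPrimitiveRoot ζ p) ∧
    ∃ S : Finset (GalP p F), Dense (Subgroup.closure (S : Set (GalP p F)) : Set (GalP p F))

/-- The pro-`p` group `G` is the free pro-`p` product of the closed subgroups `H i`: homomorphisms to
finite `p`-groups with open kernels extend uniquely. -/
def FreeProduct (p : ℕ) (G : Type) [Group G] [TopologicalSpace G] {n : ℕ}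
    (H : Fin n → Subgroup G) : Prop :=
  (∀ i, IsClosed (H i : Set G)) ∧
  ∀ (P : Type) [Group P] [Finite P], (∃ k : ℕ, Nat.card P = p ^ k) →
    ∀ φ : (i : Fin n) → (H i →* P), (∀ i, IsOpen ((φ i).ker : Set (H i))) →
      ∃! ψ : G →* P, IsOpen (ψ.ker : Set G) ∧ ∀ i, ∀ x : H i, ψ (x : G) = φ i x

/-- `H` is the decomposition group of a valuation of the maximal `p`-extension, and the inertia group is
not trivial. -/
def Decomposition (p : ℕ) (F : Type) [Field F] (H : Subgroup (GalP p F)) : Prop :=
  ∃ (Γ : Type) (_ : LinearOrderedCommGroupWithZero Γ) (w : Valuation (maxExt p F) Γ),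
    (∀ σ : GalP p F, σ ∈ H ↔ ∀ x : maxExt p F, (w (σ x) ≤ 1 ↔ w x ≤ 1)) ∧
    ∃ σ ∈ H, σ ≠ 1 ∧ ∀ x : maxExt p F, w x ≤ 1 → w (σ x - x) < 1

/-- The maximal pro-`p` Galois group has a decomposition as in the Elementary Type Conjecture. -/
def ET (p : ℕ) [Fact p.Prime] (F : Type) [Field F] : Prop :=
  ∃ (n : ℕ) (H : Fin n → Subgroup (GalP p F)), FreeProduct p (GalP p F) H ∧
    ∀ i, Nonempty (H i ≃ₜ* Multiplicative (PadicInt p)) ∨ Decomposition p F (H i) ∨
      (p = 2 ∧ Nat.card (H i) = 2)

/-- `K` has a nontrivial henselian valuation with residue characteristic zero and `p`-divisible value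
group. -/
def Hens (p : ℕ) (K : Type) [Field K] : Prop :=
  ∃ A : ValuationSubring K, A ≠ ⊤ ∧ HenselianLocalRing A ∧
    CharZero (IsLocalRing.ResidueField A) ∧ ∀ x : K, ∃ (y : K) (u : Aˣ), x = y ^ p * (u : A)

/-- The facts which are used, see above for their proofs. -/
structure IsKnown (p : ℕ) [Fact p.Prime] : Prop where
  iso_fg : ∀ (F F' : Type) [Field F] [Field F'], Nonempty (F ≃+* F') → FG p F → FG p F'
  iso_et : ∀ (F F' : Type) [Field F] [Field F'], Nonempty (F ≃+* F') → ET p F → ET p F'
  /-- elementary substructures -/
  elementary : ∀ (F : Type) [Field F], FG p F → ∃ E : Subfield F, Countable E ∧ FG p E ∧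
    (ET p E → ET p F)
  /-- characteristic zero -/
  lift : ∀ (E : Type) [Field E], Countable E → CharZero E → FG p E →
    ∃ (K : Type) (_ : Field K), Countable K ∧ CharZero K ∧ Hens p K ∧ FG p K ∧ (ET p K → ET p E)
  /-- positive characteristic -/
  lift_char : ∀ (E : Type) [Field E] (l : ℕ), l ≠ 0 → CharP E l → Countable E → FG p E →
    ∃ (K : Type) (_ : Field K), Countable K ∧ CharZero K ∧ FG p K ∧ (ET p K → ET p E)

/-- A countable field of characteristic zero embeds in `ℂ`. -/
theorem embeds (E : Type) [Field E] [Countable E] [CharZero E] : Nonempty (E →+* ℂ) := by
  let R := MvPolynomial ℝ E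
  let Q := FractionRing R
  let K := AlgebraicClosure Q
  have : CharZero Q := charZero_of_injective_algebraMap (IsFractionRing.injective R Q)
  have : CharZero K := charZero_of_injective_algebraMap (algebraMap Q K).injective
  have h1 : #K ≤ #ℂ := by
    have h2 : #R ≤ #ℂ := by
      refine MvPolynomial.cardinalMk_le_max.trans ?_
      rw [Cardinal.mk_real, Cardinal.mk_complex]
      exact max_le (max_le (Cardinal.mk_le_aleph0.trans Cardinal.aleph0_le_continuum) le_rfl)
        Cardinal.aleph0_le_continuum
    have h3 : #Q ≤ #ℂ := (IsLocalization.cardinalMk_le (nonZeroDivisors R)).trans h2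
    refine (Algebra.IsAlgebraic.cardinalMk_le_max Q K).trans ?_
    refine max_le h3 ?_
    rw [Cardinal.mk_complex]
    exact Cardinal.aleph0_le_continuum
  have h2 : #ℂ ≤ #K := by
    rw [Cardinal.mk_complex, ← Cardinal.mk_real]
    refine Cardinal.mk_le_of_injective (f := fun r : ℝ => algebraMap Q K (algebraMap R Q
      (MvPolynomial.X r))) ?_
    intro r s hrs
    exact MvPolynomial.X_injective (IsFractionRing.injective R Q ((algebraMap Q K).injective hrs))
  have h3 : #K = #ℂ := le_antisymm h1 h2
  have h4 : ℵ₀ < #K := by
    rw [h3, Cardinal.mk_complex]
    exact Cardinal.aleph0_lt_continuum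
  obtain ⟨e⟩ := IsAlgClosed.ringEquiv_of_equiv_of_charZero (K := K) (L := ℂ) h4 (Cardinal.eq.mp h3)
  exact ⟨(e : K →+* ℂ).comp ((algebraMap Q K).comp ((algebraMap R Q).comp MvPolynomial.C))⟩

/-- **The Elementary Type Conjecture: reduction to countable subfields of the complex numbers.** See the
explanations above. -/
theorem result (p : ℕ) [Fact p.Prime] (known : IsKnown p) : List.TFAE [
    ∀ (F : Type) [Field F], FG p F → ET p F,
    ∀ F : Subfield ℂ, Countable F → FG p F → ET p F,
    ∀ (F : Type) [Field F], Countable F → CharZero F → Hens p F → FG p F → ET p F] := by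
  -- from subfields of `ℂ` to abstract countable fields of characteristic zero
  have key : (∀ F : Subfield ℂ, Countable F → FG p F → ET p F) →
      ∀ (F : Type) [Field F], Countable F → CharZero F → FG p F → ET p F := by
    intro h F _ hc hz hF
    obtain ⟨i⟩ := embeds F
    have e : F ≃+* i.fieldRange := RingEquiv.ofBijective i.rangeRestrictField
      ⟨i.rangeRestrictField.injective, i.rangeRestrictField_bijective.2⟩
    have h1 : Countable i.fieldRange := e.symm.toEquiv.countable_iff.mpr hc
    exact known.iso_et _ _ ⟨e.symm⟩ (h i.fieldRange h1 (known.iso_fg _ _ ⟨e⟩ hF))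
  tfae_have 1 → 2 := fun h F _ hF => h F hF
  tfae_have 1 → 3 := fun h F _ _ _ _ hF => h F hF
  tfae_have 3 → 2 := by
    intro h F hc hF
    obtain ⟨K, hK, h1, h2, h3, h4, h5⟩ := known.lift F hc inferInstance hF
    exact h5 (h K h1 h2 h3 h4)
  tfae_have 2 → 1 := by
    intro h F _ hF
    obtain ⟨E, h1, h2, h3⟩ := known.elementary F hF
    refine h3 ?_
    obtain ⟨l, hl⟩ := CharP.exists E
    by_cases hl0 : l = 0
    · subst hl0
      exact key h E h1 (CharP.charP_to_charZero E) h2
    · obtain ⟨K, hK, h4, h5, h6, h7⟩ := known.lift_char E l hl0 hl h1 h2
      exact h7 (key h K h4 h5 h6)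
  tfae_finish

end Pool.Agent.Results.MP_600e55_nt.CountableSubfields
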